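import Pool.Agent.Helper5.FRC.Defs

/-!
# Project FRC (MP_79b960_co), goal PAIR
-/

set_option autoImplicit false

namespace Pool.Agent.Helper67.FRC.PAIR

open Finset Pool.Agent.Helper5.FRC

variable {V : Type} [Fintype V] [DecidableEq V]

lemma even_inner {A S : Finset V} {t : V → V} (hA : Prg A t) (hS : S ⊆ A) :
    Even (S.filter fun x => t x ∈ S).card := by
  have h : ∑ x ∈ S.filter (fun x => t x ∈ S), (1 : ZMod 2) = 0 := by
    refine Finset.sum_involution (fun x _ => t x) ?_ ?_ ?_ ?_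
    · intro a _; decide
    · intro a ha _
      exact (hA a (hS (mem_filter.1 ha).1)).2.2
    · intro a ha
      obtain ⟨h1, h2⟩ := mem_filter.1 ha
      refine mem_filter.2 ⟨h2, ?_⟩
      rw [(hA a (hS h1)).2.1]
      exact h1
    · intro a ha
      exact (hA a (hS (mem_filter.1 ha).1)).2.1
  rw [sum_const, nsmul_eq_mul, mul_one] at h
  exact (ZMod.natCast_eq_zero_iff_even).1 h

lemma odd_dm {A S : Finset V} {t : V → V} (hA : Prg A t) (hS : S ⊆ A) (ho : Odd S.card) :
    Odd (dm t S) := by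
  have h := card_filter_add_card_filter_not (s := S) (fun x => t x ∈ S)
  have h2 : (S.filter fun x => ¬ t x ∈ S).card = dm t S := rfl
  rw [h2] at h
  have h3 := even_inner hA hS
  rw [← h] at ho
  exact (Nat.odd_add'.1 ho).2 h3

theorem fin4 : ∀ J : Finset (Fin 4), Odd J.card → ∃ i, J = {i} ∨ J = {i}ᶜ := by decide

theorem t (hN : NprStmt) : PairStmt := by
  intro V _ _ n A t C hn hA hB hC ho hd hAC x hx htx y hy hty
  have hCA : ∀ i, C i ⊆ A := by
    intro i; rw [hAC]; exact subset_biUnion_of_mem C (mem_univ i)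
  -- the fixed points
  obtain ⟨f, f0, f1, f2, f3⟩ : ∃ f : Fin 4 → V, f 0 = x ∧ f 1 = t x ∧ f 2 = y ∧ f 3 = t y :=
    ⟨![x, t x, y, t y], rfl, rfl, rfl, rfl⟩
  have hf : ∀ i, f i ∈ C i := by
    intro i
    fin_cases i
    · show f 0 ∈ C 0
      rw [f0]; exact hx
    · show f 1 ∈ C 1
      rw [f1]; exact htx
    · show f 2 ∈ C 2
      rw [f2]; exact hy
    · show f 3 ∈ C 3
      rw [f3]; exact hty
  have hq : ∀ i, ∃ q : V → V, Npr n (C i) (f i) q := fun i => hN V n (C i) (hC i) (ho i) (f i) (hf i)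
  choose q hq using hq
  classical
  have huniq : ∀ i j v, v ∈ C i → v ∈ C j → i = j := by
    intro i j v hi hj
    by_contra hne
    exact (Finset.disjoint_left.1 (hd i j hne)) hi hj
  obtain ⟨P, hP⟩ : ∃ P : V → V, ∀ i, ∀ v ∈ C i, P v = q i v := by
    refine ⟨fun v => if h : ∃ i, v ∈ C i then q h.choose v else v, ?_⟩
    intro i v hv
    have h : ∃ i, v ∈ C i := ⟨i, hv⟩
    have h2 : h.choose = i := huniq _ _ v h.choose_spec hv
    simp only [dif_pos h, h2]
  have hmem : ∀ v ∈ A, ∃ i, v ∈ C i := by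
    intro v hv
    rw [hAC] at hv
    obtain ⟨i, -, hi⟩ := mem_biUnion.1 hv
    exact ⟨i, hi⟩
  set Y : Finset V := univ.image f with hY
  have hYm : ∀ v, v ∈ Y ↔ ∃ i, f i = v := by
    intro v; rw [hY]; simp
  have hxA := hCA 0 hx
  have hyA := hCA 2 hy
  have hYt : ∀ v ∈ Y, t v ∈ Y := by
    intro v hv
    obtain ⟨i, rfl⟩ := (hYm v).1 hv
    fin_cases i
    · exact (hYm _).2 ⟨1, by show f 1 = t (f 0); rw [f0, f1]⟩
    · exact (hYm _).2 ⟨0, by show f 0 = t (f 1); rw [f0, f1, (hA x hxA).2.1]⟩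
    · exact (hYm _).2 ⟨3, by show f 3 = t (f 2); rw [f2, f3]⟩
    · exact (hYm _).2 ⟨2, by show f 2 = t (f 3); rw [f2, f3, (hA y hyA).2.1]⟩
  have hPf : ∀ i, P (f i) = f i := by
    intro i
    rw [hP i _ (hf i)]
    exact (hq i (f i) (hf i)).2.2.2.2 rfl
  -- the edges between `C i` and the rest
  have hL : ∀ i, ∃ u ∈ C i, u ∉ Y ∧ t u ∉ C i := by
    intro i
    have h1 : Odd (dm t (C i)) := odd_dm hA (hCA i) (ho i)
    have h2 : dm t (C i) ≠ 1 := hB _ (hCA i) (hC i).2.1 (ho i)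
    have h3 : 1 < dm t (C i) := by
      rcases h1 with ⟨k, hk⟩
      omega
    obtain ⟨u, hu, hne⟩ := exists_mem_ne h3 (f i)
    obtain ⟨hu1, hu2⟩ := mem_filter.1 hu
    refine ⟨u, hu1, ?_, hu2⟩
    intro huY
    obtain ⟨j, hj⟩ := (hYm u).1 huY
    have : j = i := huniq j i u (hj ▸ hf j) hu1
    rw [this] at hj
    exact hne hj.symm
  refine ⟨P, Y, ?_, ?_, ?_, ?_, ?_, ?_⟩
  · intro v hv
    obtain ⟨i, rfl⟩ := (hYm v).1 hv
    exact hCA i (hf i)
  · intro v hv
    obtain ⟨i, hi⟩ := hmem v hv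
    obtain ⟨h1, h2, h3, h4⟩ := hq i v hi
    rw [hP i v hi]
    refine ⟨hCA i h1, ?_, h3⟩
    rw [hP i _ h1, h2]
  · intro v hv
    refine ⟨hYt v hv, ?_⟩
    obtain ⟨i, rfl⟩ := (hYm v).1 hv
    rw [hPf]; exact hv
  · intro v hv hPv
    obtain ⟨i, hi⟩ := hmem v hv
    rw [hP i v hi] at hPv
    have hvf : v = f i := (hq i v hi).2.2.2.1 hPv
    refine ⟨(hYm v).2 ⟨i, hvf.symm⟩, ?_⟩
    have hni : n v ∈ C i := (hC i).2.1 v hi
    rw [hP i _ hni]
    intro h
    have : n v = f i := (hq i (n v) hni).2.2.2.1 h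
    exact hn v (this.trans hvf.symm)
  · have h1 : (A.filter fun v => P v = v) ⊆ Y := by
      intro v hv
      obtain ⟨hvA, hPv⟩ := mem_filter.1 hv
      obtain ⟨i, hi⟩ := hmem v hvA
      rw [hP i v hi] at hPv
      exact (hYm v).2 ⟨i, ((hq i v hi).2.2.2.1 hPv).symm⟩
    refine (card_le_card h1).trans ?_
    refine card_image_le.trans ?_
    simp
  · intro S hS hSn hSo
    set J : Finset (Fin 4) := univ.filter fun i => C i ⊆ S with hJ
    have hJm : ∀ i, i ∈ J ↔ C i ⊆ S := by intro i; rw [hJ]; simp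
    have hint : ∀ i, (S ∩ C i).Nonempty → C i ⊆ S := by
      intro i hne
      have h1 : Inv n (S ∩ C i) := by
        intro v hv
        obtain ⟨h1, h2⟩ := mem_inter.1 hv
        exact mem_inter.2 ⟨hSn v h1, (hC i).2.1 v h2⟩
      have h2 := (hC i).2.2 (S ∩ C i) inter_subset_right hne h1
      intro v hv
      rw [← h2] at hv
      exact (mem_inter.1 hv).1
    have hSJ : S = J.biUnion C := by
      ext v
      rw [mem_biUnion]
      constructor
      · intro hv
        obtain ⟨i, hi⟩ := hmem v (hS hv)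
        exact ⟨i, (hJm i).2 (hint i ⟨v, mem_inter.2 ⟨hv, hi⟩⟩), hi⟩
      · rintro ⟨i, hi, hv⟩
        exact (hJm i).1 hi hv
    have hcard : S.card = ∑ i ∈ J, (C i).card := by
      rw [hSJ]
      refine card_biUnion ?_
      intro i _ j _ hij
      exact hd i j hij
    have hJo : Odd J.card := by
      have h1 : ((S.card : ℕ) : ZMod 2) = ((J.card : ℕ) : ZMod 2) := by
        rw [hcard, Nat.cast_sum, card_eq_sum_ones, Nat.cast_sum]
        refine sum_congr rfl fun i _ => ?_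
        have := (ZMod.natCast_eq_one_iff_odd).2 (ho i)
        rw [this]; simp
      have h2 := (ZMod.natCast_eq_one_iff_odd).2 hSo
      rw [h1] at h2
      exact (ZMod.natCast_eq_one_iff_odd).1 h2
    obtain ⟨i, hi⟩ := fin4 J hJo
    obtain ⟨u, hu, huY, htu⟩ := hL i
    rcases hi with hi | hi
    · have hSi : S = C i := by rw [hSJ, hi, singleton_biUnion]
      rw [hSi]
      exact ⟨u, hu, huY, htu⟩
    · have huA := hCA i hu
      obtain ⟨j, hj⟩ := hmem (t u) (hA u huA).1
      have hji : j ≠ i := by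
        rintro rfl; exact htu hj
      refine ⟨t u, ?_, ?_, ?_⟩
      · rw [hSJ, mem_biUnion]
        exact ⟨j, by rw [hi]; simp [hji], hj⟩
      · intro h
        have := hYt _ h
        rw [(hA u huA).2.1] at this
        exact huY this
      · rw [(hA u huA).2.1, hSJ, mem_biUnion]
        rintro ⟨k, hk, huk⟩
        have := huniq k i u huk hu
        rw [hi, this] at hk
        simp at hk

end Pool.Agent.Helper67.FRC.PAIR
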